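import Pool.Agent.Work.MP_5b0587_nt.Final7

/-!
Supercongruences for the truncated sums attached to the squares of `binom(-1/4, k)`:
the full answer to Q1 (all the congruences hold).
-/

namespace Pool.Agent.Results.MP_5b0587_nt.Supercongruences

open Finset Pool.Agent.SC

/-- The generalised binomial coefficient `a (a-1) ... (a-k+1) / k!`. -/
def gbinom (a : ℚ) (k : ℕ) : ℚ := (∏ j ∈ range k, (a - j)) / k.factorial

/-- Congruence of rationals modulo `p ^ 2`: the difference is `p ^ 2` times a rational number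
whose denominator is prime to `p`. -/
def CongSq (p : ℕ) (u v : ℚ) : Prop := ∃ w : ℚ, w.den.Coprime p ∧ u - v = (p : ℚ) ^ 2 * w

/-- `S_1(p)` -/
def S1 (p : ℕ) : ℚ := ∑ k ∈ range p, gbinom (-1 / 4) k ^ 2 * 4 ^ k

/-- `S_2(p)` -/
def S2 (p : ℕ) : ℚ := ∑ k ∈ range p, gbinom (-1 / 4) k * gbinom (-1 / 2) k * (-8) ^ k

/-- `S_3(p)` -/
def S3 (p : ℕ) : ℚ := ∑ k ∈ range p, gbinom (-1 / 4) k ^ 2 / 4 ^ k

theorem gbinom_neg (a : ℚ) (k : ℕ) : gbinom (-a) k = (-1) ^ k * poch a k / k.factorial := by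
  have h : (-1 : ℚ) ^ k = ∏ _j ∈ range k, (-1 : ℚ) := by simp
  rw [gbinom, poch, h, ← prod_mul_distrib]
  congr 1
  apply prod_congr rfl
  intro j _
  ring

theorem S1_eq (p : ℕ) : S1 p = hyp (1 / 4) (1 / 4) 1 4 p := by
  rw [S1, hyp]
  apply sum_congr rfl
  intro k _
  rw [show (-1 / 4 : ℚ) = -(1 / 4) by norm_num, gbinom_neg, term, poch_one]
  have h : ((-1 : ℚ) ^ k) ^ 2 = 1 := by rw [← pow_mul, mul_comm, pow_mul]; norm_num
  rw [div_pow, mul_pow, h]
  ring

theorem S3_eq (p : ℕ) : S3 p = hyp (1 / 4) (1 / 4) 1 (1 / 4) p := by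
  rw [S3, hyp]
  apply sum_congr rfl
  intro k _
  rw [show (-1 / 4 : ℚ) = -(1 / 4) by norm_num, gbinom_neg, term, poch_one]
  have h : ((-1 : ℚ) ^ k) ^ 2 = 1 := by rw [← pow_mul, mul_comm, pow_mul]; norm_num
  rw [div_pow, mul_pow, h, one_div_pow]
  ring

theorem S2_eq (p : ℕ) : S2 p = hyp (1 / 4) (1 / 2) 1 (-8) p := by
  rw [S2, hyp]
  apply sum_congr rfl
  intro k _
  rw [show (-1 / 4 : ℚ) = -(1 / 4) by norm_num, show (-1 / 2 : ℚ) = -(1 / 2) by norm_num,
    gbinom_neg, gbinom_neg, term, poch_one]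
  have h : ((-1 : ℚ) ^ k) * (-1) ^ k = 1 := by rw [← mul_pow]; norm_num
  calc (-1 : ℚ) ^ k * poch (1 / 4) k / k.factorial *
        ((-1) ^ k * poch (1 / 2) k / k.factorial) * (-8) ^ k
      = ((-1 : ℚ) ^ k * (-1) ^ k) * (poch (1 / 4) k * poch (1 / 2) k /
        (k.factorial * k.factorial) * (-8) ^ k) := by ring
    _ = _ := by rw [h, one_mul]

theorem S2_at_seven : cg 7 2 (hyp (1 / 4) (1 / 2) 1 (-8) (7 : ℕ)) (6 - 7 / 2) := by
  refine ⟨(18935 : ℚ) / 256, ?_, ?_⟩
  · rw [div_eq_mul_inv]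
    have : ((256 : ℕ) : ℚ)⁻¹ ∈ O 7 := inv_natCast_mem (by norm_num)
    exact (O 7).mul_mem (ofNat_mem' 18935) (by exact_mod_cast this)
  · norm_num [hyp, term, poch, sum_range_succ, prod_range_succ, Nat.factorial]

theorem neg_one_zpow_flip (z : ℤ) : (-1 : ℚ) ^ (-(z + 1)) = -(-1) ^ z := by
  rw [zpow_neg, zpow_add₀ (by norm_num), zpow_one, mul_neg_one, inv_neg, ← inv_zpow]
  norm_num

theorem zpow_natAbs (z : ℤ) : (-1 : ℚ) ^ z.natAbs = (-1) ^ z :=
  (pow_parity rfl).symm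

/-- All the congruences of Q1 hold. -/
theorem result : ∀ p : ℕ, p.Prime → p % 3 = 1 → ∀ A B : ℤ, (p : ℤ) = A ^ 2 + 3 * B ^ 2 →
    (p % 12 = 1 →
      CongSq p (S1 p) ((-1) ^ (((p : ℤ) - 1) / 4 + (A - 1) / 2) * (2 * A - p / (2 * A))) ∧
      CongSq p (S2 p) ((-1) ^ (((p : ℤ) - 1) / 4 + (A - 1) / 2) * (2 * A - p / (2 * A))) ∧
      CongSq p (S3 p) ((-1) ^ ((A - 1) / 2) * (2 * A - p / (2 * A)))) ∧
    (p % 12 = 7 →
      CongSq p (S1 p) ((-1) ^ (((p : ℤ) + 1) / 4 + (B - 1) / 2) * (6 * B - p / (2 * B))) ∧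
      CongSq p (S2 p) ((-1) ^ (((p : ℤ) + 1) / 4 + (B - 1) / 2) * (6 * B - p / (2 * B))) ∧
      CongSq p (S3 p) ((-1) ^ ((B - 1) / 2) * (3 * B - p / (4 * B)))) := by
  intro p hpr hp3 A B hAB
  have : Fact p.Prime := ⟨hpr⟩
  have hA3 : A % 3 = 1 ∨ (-A) % 3 = 1 := by
    have h0 : (p : ℤ) % 3 = 1 := by omega
    rw [hAB] at h0
    have h1 : (A ^ 2 + 3 * B ^ 2) % 3 = A ^ 2 % 3 := by omega
    rw [h1] at h0
    have h2 : A % 3 = 0 ∨ A % 3 = 1 ∨ A % 3 = 2 := by omega
    rcases h2 with h | h | h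
    · exfalso
      obtain ⟨k, hk⟩ : (3 : ℤ) ∣ A := by omega
      rw [hk] at h0
      have : (3 * k) ^ 2 = 3 * (3 * k ^ 2) := by ring
      rw [this] at h0
      omega
    · exact Or.inl h
    · right; omega
  constructor
  · intro h12
    obtain ⟨m, hm⟩ : ∃ m, p = 12 * m + 1 := ⟨p / 12, by omega⟩
    have hAodd : A % 2 = 1 := by
      have h0 : (p : ℤ) % 4 = 1 := by omega
      rw [hAB] at h0
      rcases Int.even_or_odd' A with ⟨a, ha | ha⟩ <;> rcases Int.even_or_odd' B with ⟨b, hb | hb⟩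
      · exfalso
        have : A ^ 2 + 3 * B ^ 2 = 4 * (a ^ 2 + 3 * b ^ 2) := by rw [ha, hb]; ring
        omega
      · exfalso
        have : A ^ 2 + 3 * B ^ 2 = 4 * (a ^ 2 + 3 * b ^ 2 + 3 * b) + 3 := by rw [ha, hb]; ring
        omega
      · omega
      · omega
    have key : CongSq p (S1 p) ((-1) ^ m * (-1) ^ ((A - 1) / 2) * (2 * A - p / (2 * A))) ∧
        CongSq p (S2 p) ((-1) ^ m * (-1) ^ ((A - 1) / 2) * (2 * A - p / (2 * A))) ∧
        CongSq p (S3 p) ((-1) ^ ((A - 1) / 2) * (2 * A - p / (2 * A))) := by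
      rw [S1_eq, S2_eq, S3_eq]
      rcases hA3 with h | h
      · have e1 := S1_one hm A B hAB h
        have e2 := S2_one hm A B hAB h
        have e3 := S3_one hm A B hAB h
        rw [zpow_natAbs] at e1 e2 e3
        exact ⟨e1, e2, e3⟩
      · have hAB' : (p : ℤ) = (-A) ^ 2 + 3 * B ^ 2 := by rw [hAB]; ring
        have e1 := S1_one hm (-A) B hAB' h
        have e2 := S2_one hm (-A) B hAB' h
        have e3 := S3_one hm (-A) B hAB' h
        rw [zpow_natAbs] at e1 e2 e3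
        have hz : (-A - 1) / 2 = -((A - 1) / 2 + 1) := by omega
        rw [hz, neg_one_zpow_flip] at e1 e2 e3
        have hv : ∀ s : ℚ, s * -(-1 : ℚ) ^ ((A - 1) / 2) *
            (2 * ((-A : ℤ) : ℚ) - p / (2 * ((-A : ℤ) : ℚ))) =
            s * (-1 : ℚ) ^ ((A - 1) / 2) * (2 * A - p / (2 * A)) := by
          intro s
          push_cast
          rw [mul_neg 2 (A : ℚ), div_neg]
          ring
        have hv1 := hv ((-1) ^ m)
        have hv2 := hv 1
        rw [one_mul, one_mul] at hv2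
        rw [hv1] at e1 e2
        rw [hv2] at e3
        exact ⟨e1, e2, e3⟩
    have hexp : ((-1 : ℚ)) ^ (((p : ℤ) - 1) / 4 + (A - 1) / 2) =
        (-1) ^ m * (-1) ^ ((A - 1) / 2) := by
      rw [zpow_add₀ (by norm_num)]
      congr 1
      have : ((p : ℤ) - 1) / 4 = ((3 * m : ℕ) : ℤ) := by omega
      rw [this, zpow_natCast, pow_mul]
      norm_num
    rw [hexp]
    exact key
  · intro h12
    obtain ⟨m, hm⟩ : ∃ m, p = 12 * m + 7 := ⟨p / 12, by omega⟩
    have hexp : ((-1 : ℚ)) ^ (((p : ℤ) + 1) / 4 + (B - 1) / 2) =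
        (-1) ^ m * (-1) ^ ((B - 1) / 2) := by
      rw [zpow_add₀ (by norm_num)]
      congr 1
      have : ((p : ℤ) + 1) / 4 = ((3 * m + 2 : ℕ) : ℤ) := by omega
      rw [this, zpow_natCast, pow_add, pow_mul]
      norm_num
    rw [hexp, S1_eq, S2_eq, S3_eq]
    -- reduce to A = 1 mod 3
    have main : ∀ A' : ℤ, (p : ℤ) = A' ^ 2 + 3 * B ^ 2 → A' % 3 = 1 →
        CongSq p (hyp (1 / 4) (1 / 4) 1 4 p) ((-1) ^ m * (-1) ^ ((B - 1) / 2) *
          (6 * B - p / (2 * B))) ∧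
        CongSq p (hyp (1 / 4) (1 / 2) 1 (-8) p) ((-1) ^ m * (-1) ^ ((B - 1) / 2) *
          (6 * B - p / (2 * B))) ∧
        CongSq p (hyp (1 / 4) (1 / 4) 1 (1 / 4) p) ((-1) ^ ((B - 1) / 2) *
          (3 * B - p / (4 * B))) := by
      intro A' hA' h3
      obtain ⟨B1, hB1, hmod, hθ⟩ := exists_B hm A' B hA' h3
      have hAB1 : (p : ℤ) = A' ^ 2 + 3 * B1 ^ 2 := by
        rcases hB1 with h | h <;> rw [h, hA'] <;> ring
      have hval : (-1 : ℚ) ^ ((B - 1) / 2) * (6 * B - p / (2 * B)) =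
          6 * B1 - p / (2 * B1) := by
        rcases hB1 with h | h
        · have : (B - 1) / 2 = 2 * ((B - 1) / 4) := by omega
          rw [this, zpow_mul, h]
          norm_num
        · have h' : B = -B1 := by omega
          have : (B - 1) / 2 = 2 * ((B - 3) / 4) + 1 := by omega
          rw [this, zpow_add₀ (by norm_num), zpow_mul, h']
          push_cast
          rw [mul_neg 2 (B1 : ℚ), div_neg]
          norm_num
          ring
      have e1 := S1_seven hm A' h3 B1 hAB1 hθ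
      have e3 := S3_seven hm A' h3 B1 hAB1 hθ
      have e2 : cg p 2 (hyp (1 / 4) (1 / 2) 1 (-8) p) ((-1) ^ m * (6 * B1 - p / (2 * B1))) := by
        rcases Nat.eq_zero_or_pos m with h0 | h0
        · have hB1' : B1 = 1 := by
            have h7 : (p : ℤ) = 7 := by rw [hm, h0]; norm_num
            rw [h7] at hAB1
            have hb1 : B1 ≤ 1 := by nlinarith [sq_nonneg A']
            have hb2 : -1 ≤ B1 := by nlinarith [sq_nonneg A']
            omega
          have hp7 : p = 7 := by omega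
          subst hp7
          rw [h0, hB1']
          have := S2_at_seven
          norm_num at this ⊢
          exact this
        · exact S2_seven hm A' h3 B1 hAB1 hθ h0
      refine ⟨?_, ?_, ?_⟩
      · rw [mul_assoc, hval]; exact e1
      · rw [mul_assoc, hval]; exact e2
      · have : (-1 : ℚ) ^ ((B - 1) / 2) * (3 * B - p / (4 * B)) =
            (6 * B1 - p / (2 * B1)) / 2 := by
          rw [← hval]
          have hB0 : (B : ℚ) ≠ 0 := by exact_mod_cast B_ne_zero A' B hA'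
          field_simp
          ring
        rw [this]
        exact e3
    rcases hA3 with h | h
    · exact main A hAB h
    · exact main (-A) (by rw [hAB]; ring) h

end Pool.Agent.Results.MP_5b0587_nt.Supercongruences
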